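import Pool.Agent.Lib_helper26.TriRead.SatLower

namespace Pool.Agent.Results.MP_a77cad_lc.ReadRInput

open Pool.Agent.Lib_helper26.TriRead

/-- For nonuniform verifiers that may use the witness freely but read every bit of the input formula
at most `r` times, satisfiability of 3CNFs over `v` variables has witnesses of `v` bits, checked with
one reading and `O(log v)` bits of memory, whereas for unsatisfiability witness and memory together
need `v ^ (3 / 2) / C ^ r - 1` bits. -/
theorem result :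
    (∀ v : ℕ, ∃ P : (Fin v → Bool) → Prog (Cls v) (Fin ((2 * v) ^ 3 + 1)),
      (∀ τ, (P τ).Det ∧ (P τ).ReadBound (fun _ => 1) ∧ (P τ).ChunkAtMost 1) ∧
      ∀ F : Set (Cls v), (∃ τ, (P τ).Accepts F) ↔ Sat F) ∧
    ∃ C : ℕ, 0 < C ∧ ∀ v r b : ℕ, 1 ≤ r → C * r ^ 2 * b ≤ v ^ 2 →
      ∀ (W V : Type) [Fintype W] [Fintype V] (P : W → Prog (Cls v) V),
        (∀ w, (P w).ReadBound (fun _ => r)) → (∀ w, (P w).ChunkAtMost b) →
        (∀ F : Set (Cls v), (∃ w, (P w).Accepts F) ↔ ¬ Sat F) →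
        (v : ℝ) ^ (3 / 2 : ℝ) ≤ (C : ℝ) ^ r *
          (Real.logb 2 (Fintype.card W) + Real.logb 2 (Fintype.card V) + 1) :=
  ⟨sat_upper, unsat_lower⟩

end Pool.Agent.Results.MP_a77cad_lc.ReadRInput
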