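import Pool.Agent.Lib_helper26.TriRead.PairUpper

namespace Pool.Agent.Lib_helper26.Kept.ReadRMP153864

open Pool.Agent.Lib_helper26.TriRead

/-- Comparing the numbers of triangles of two graphs separates PP from NP ∪ coNP for programs that
read the input a bounded number of times: a majority of deterministic read-once programs with four
states decides it, but neither it nor its complement is decided by a family of nondeterministic
programs with less than about `n ^ (3 / 2)` bits of witness and memory. -/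
theorem result :
    (∀ n : ℕ, ∃ P : Y n → Prog (E2 n) (Fin 4),
      (∀ y, (P y).Det ∧ (P y).ReadBound (fun _ => 1) ∧ (P y).ChunkAtMost 1) ∧
      ∀ G₁ G₂ : SimpleGraph (Fin n), tri G₂ < tri G₁ ↔
        Nat.card (Y n) < 2 * Nat.card {y // (P y).Accepts (code G₁ G₂)}) ∧
    ∃ C : ℕ, 0 < C ∧ ∀ n m r b : ℕ, m ^ 2 ≤ n ^ 3 → 1 ≤ r → C * r ^ 2 * b ≤ n ^ 2 →
      ∀ (W V : Type) [Fintype W] [Fintype V] (P : W → Prog (E2 n) V),
        (∀ w, ∃ R : E2 n → ℕ, (P w).ReadBound R ∧ ∑ e, R e ≤ r * n ^ 2) →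
        (∀ w, (P w).ChunkAtMost b) →
        ((∀ G₁ G₂ : SimpleGraph (Fin n), G₁.edgeSet.ncard ≤ m → G₂.edgeSet.ncard ≤ m →
            ((∃ w, (P w).Accepts (code G₁ G₂)) ↔ tri G₂ < tri G₁)) ∨
          (∀ G₁ G₂ : SimpleGraph (Fin n), G₁.edgeSet.ncard ≤ m → G₂.edgeSet.ncard ≤ m →
            ((∃ w, (P w).Accepts (code G₁ G₂)) ↔ ¬ tri G₂ < tri G₁))) →
        (m : ℝ) ≤ (C : ℝ) ^ r *
          (Real.logb 2 (Fintype.card W) + Real.logb 2 (Fintype.card V) + 1) :=
  ⟨pair_upper, pair_lower⟩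

end Pool.Agent.Lib_helper26.Kept.ReadRMP153864
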