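import Pool.Agent.Lib_helper26.TS.Main

namespace Pool.Agent.Lib_helper26.Kept.TimeSpaceChain

open Pool.Agent.Lib_helper26.TS

/-- NP ∪ coNP is a proper part of PP, and PP is a proper part of PSPACE, for nonuniform random
access machines in time `T ≤ (ε / 24000) n log n / log log n` with less than `n ^ (1 - ε)` bits of
memory and of witness or random bits, on inputs of `2 n` words over a field with `q ≥ n`
elements; no restriction on the order or on the number of the reads. -/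
theorem result :
    (∀ (n q T W : ℕ) (V : Type) (L : (Cell n → ZMod q) → Prop),
      (InNP n q T V W L → InPP n q T V (W + 1) L) ∧
      (InCoNP n q T V W L → InPP n q T V (W + 1) L) ∧
      (InPP n q T V W L → InPSPACE n q T V (W * (W + 3) / 2) L)) ∧
    ∀ ε : ℝ, 0 < ε → ε < 1 → ∃ n₀ : ℕ, ∀ n ≥ n₀, ∀ (q : ℕ) [Fact q.Prime], n ≤ q →
      (∀ T ≥ n, InPP n q T (ZMod q) (tlog ε n + 1) (MoreErr ε n)) ∧
      (∀ T ≥ 2 * n, InPSPACE n q T (ZMod q × ZMod q) (tlog ε n * (Nat.clog 2 q + 1)) (Orth ε n)) ∧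
      ∀ (T W : ℕ) (V : Type) [Fintype V],
        (T : ℝ) ≤ ε / 24000 * (n * (Real.log n / Real.log (Real.log n))) →
        (Real.logb 2 (Fintype.card V) + W ≤ (n : ℝ) ^ (1 - ε) →
          ¬ InNP n q T V W (MoreErr ε n) ∧ ¬ InCoNP n q T V W (MoreErr ε n) ∧
          ¬ InNNP n q T V W (MoreErr ε n) ∧ ¬ InNNP n q T V W (fun z => ¬ MoreErr ε n z)) ∧
        ((Real.logb 2 (Fintype.card V) + 1) * (W + Real.logb 2 q) ≤ (n : ℝ) ^ (1 - ε) →
          ¬ InPP n q T V W (Orth ε n)) := by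
  refine ⟨fun n q T W V L => ⟨np_sub_pp, conp_sub_pp, pp_sub_pspace⟩, fun ε h0 h1 => ?_⟩
  obtain ⟨n₀, hn₀⟩ := Filter.eventually_atTop.1 (eventually_large h0)
  refine ⟨n₀, fun n hn q _ hnq => ?_⟩
  have hL := hn₀ n hn
  have hn1 : 0 < n := by exact_mod_cast large_one hL
  refine ⟨fun T hT => more_pp hn1 _ hT, fun T hT => dot_pspace hn1 _ hT,
    fun T W V _ hT => ⟨fun hW => ?_, fun hW => orth_pp h0 h1 hL hnq T W V hT hW⟩⟩
  have a1 := more_n h0 h1 hL hnq T W V hT hW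
  have a2 := more_con h0 h1 hL hnq T W V hT hW
  exact ⟨fun h => a1 h.nnp, fun h => a2 h.nnp, a1, a2⟩

end Pool.Agent.Lib_helper26.Kept.TimeSpaceChain
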